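import Mathlib
import Pool.Agent.TH932.S2.G.Gc

set_option autoImplicit false

/-!
# The block complexity of the trajectories of the Collatz permutation
-/

namespace Pool.Agent.Results.MP_96a252_nt.SuperlinearResidues

open Filter Topology Pool.Agent.TH932.S2.G

/-- the map of the problem -/
def T (x : ℤ) : ℤ :=
  if x % 3 = 0 then 2 * x / 3 else if x % 3 = 1 then (4 * x - 1) / 3 else (4 * x + 1) / 3

/-- the number of different blocks of `n` consecutive residues modulo `3` in the trajectory -/
noncomputable def blocks (x : ℤ) (n : ℕ) : ℕ :=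
  (Set.range fun i : ℕ => fun j : Fin n => ((T^[i + j] x : ℤ) : ZMod 3)).ncard

/-- the number of different blocks of `n` consecutive residues modulo `3` among the first `h` terms
of the trajectory -/
noncomputable def blocksUpTo (x : ℤ) (h n : ℕ) : ℕ :=
  ((fun i : ℕ => fun j : Fin n => ((T^[i + j] x : ℤ) : ZMod 3)) '' {i | i + n ≤ h}).ncard

/-- exponents -/
def dl (a : ZMod 3) : ℕ := if a = 0 then 1 else 2

/-- constant terms -/
def bt (a : ZMod 3) : ℤ := if a = 0 then 0 else if a = 1 then -1 else 1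

lemma cast_eq {x : ℤ} (a : ℤ) : ((x : ℤ) : ZMod 3) = ((a : ℤ) : ZMod 3) ↔ x % 3 = a % 3 := by
  rw [ZMod.intCast_eq_intCast_iff, Int.ModEq]
  norm_num

lemma hG (x : ℤ) : ((3 : ℕ) : ℤ) * T x = ((2 : ℕ) : ℤ) ^ dl (x : ZMod 3) * x + bt (x : ZMod 3) := by
  have e0 : (x : ZMod 3) = 0 ↔ x % 3 = 0 := by
    have := cast_eq (x := x) 0
    simpa using this
  have e1 : (x : ZMod 3) = 1 ↔ x % 3 = 1 := by
    have := cast_eq (x := x) 1
    simpa using this
  unfold T dl bt
  rcases (by omega : x % 3 = 0 ∨ x % 3 = 1 ∨ x % 3 = 2) with h | h | h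
  · rw [if_pos h, if_pos (e0.2 h), if_pos (e0.2 h)]
    push_cast
    omega
  · rw [if_neg (by omega), if_pos h, if_neg (by rw [e0]; omega), if_neg (by rw [e0]; omega),
      if_pos (e1.2 h)]
    push_cast
    omega
  · rw [if_neg (by omega), if_neg (by omega), if_neg (by rw [e0]; omega),
      if_neg (by rw [e0]; omega), if_neg (by rw [e1]; omega)]
    push_cast
    omega

lemma T_inj : Function.Injective T := by
  intro x y h
  unfold T at h
  split_ifs at h <;> omega

/-- **Result.** (1) If the trajectory of the integer `x` is divergent, then `p (n) / n` tends to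
infinity, where `p (n)` is the number of different blocks of `n` consecutive residues modulo `3`
in it.

(2) For every `A` there is `K` such that, for all `N ≥ K` and all integers `x` with `|x| ≤ 2 ^ N`:
if at most `A N` different blocks of length `N` occur among the first `N ^ K` terms of the
trajectory of `x`, then `x` lies on a cycle of length at most `N ^ K`, with all elements of
absolute value at most `2 ^ (K N)`.

(3) For every `A > 0` there is `K` such that, for all integers `x` and all `N₀ ≥ K` with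
`|x| ≤ 2 ^ N₀` (for instance `x = 8` and `N₀ = K + 3`): the trajectory of `x` is divergent if and only
if, for every `N ≥ N₀`, more than `A N` different blocks of length `N` occur among its first
`N ^ K` terms. -/
theorem result :
    (∀ x : ℤ, (∀ R : ℤ, ∃ k, R < |T^[k] x|) →
      Tendsto (fun n : ℕ => (blocks x n : ℝ) / n) atTop atTop) ∧
    (∀ A : ℝ, ∃ K : ℕ, ∀ (x : ℤ) (N : ℕ), K ≤ N → |x| ≤ 2 ^ N →
      (blocksUpTo x (N ^ K) N : ℝ) ≤ A * N →
      (∃ k, 1 ≤ k ∧ k ≤ N ^ K ∧ T^[k] x = x) ∧ ∀ j, |T^[j] x| ≤ 2 ^ (K * N)) ∧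
    (∀ A : ℝ, 0 < A → ∃ K : ℕ, ∀ (x : ℤ) (N₀ : ℕ), K ≤ N₀ → |x| ≤ 2 ^ N₀ →
      ((∀ R : ℤ, ∃ k, R < |T^[k] x|) ↔
        ∀ N : ℕ, N₀ ≤ N → A * N < blocksUpTo x (N ^ K) N)) := by
  have h2 : ∀ A : ℝ, ∃ K : ℕ, ∀ (x : ℤ) (N : ℕ), K ≤ N → |x| ≤ 2 ^ N →
      (blocksUpTo x (N ^ K) N : ℝ) ≤ A * N →
      (∃ k, 1 ≤ k ∧ k ≤ N ^ K ∧ T^[k] x = x) ∧ ∀ j, |T^[j] x| ≤ 2 ^ (K * N) := by
    intro A
    obtain ⟨K, h⟩ := Gc.one (d := 3) (q := 2) (by norm_num) le_rfl (by norm_num) hG A
    refine ⟨K, fun x N hN hx hcx => ?_⟩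
    obtain ⟨⟨i, hi, k, hk1, hk2, hk⟩, hb⟩ := h x N hN hx hcx
    refine ⟨⟨k, hk1, hk2, ?_⟩, hb⟩
    rw [← Function.iterate_add_apply, add_comm, Function.iterate_add_apply] at hk
    exact (T_inj.iterate i) hk
  refine ⟨fun x hx => Gc.unb (d := 3) (q := 2) (by norm_num) le_rfl (by norm_num) hG hx, h2,
    fun A hA => ?_⟩
  obtain ⟨K, hK⟩ := h2 A
  refine ⟨K, fun x N₀ hN0 hx => ⟨fun hdiv N hN => ?_, fun hcx R => ?_⟩⟩
  · by_contra hcon
    push Not at hcon
    obtain ⟨-, hb⟩ := hK x N (hN0.trans hN) (hx.trans (pow_le_pow_right₀ (by norm_num) hN)) hcon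
    obtain ⟨k, hk⟩ := hdiv (2 ^ (K * N))
    have := hb k
    omega
  · -- a bounded trajectory is periodic
    by_contra hcon
    push Not at hcon
    -- a repetition
    obtain ⟨i, j, hij, he⟩ : ∃ i j : ℕ, i < j ∧ T^[i] x = T^[j] x := by
      by_contra hne
      push Not at hne
      have hinj : Function.Injective fun k : ℕ => T^[k] x := by
        intro a b hab
        rcases lt_trichotomy a b with h | h | h
        · exact absurd hab (hne a b h)
        · exact h
        · exact absurd hab.symm (hne b a h)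
      have hfin : (Set.range fun k : ℕ => T^[k] x).Finite := by
        refine (Set.finite_Icc (-R) R).subset ?_
        rintro _ ⟨k, rfl⟩
        exact abs_le.1 (hcon k)
      exact Set.infinite_range_of_injective hinj hfin
    -- few blocks
    have hle : ∀ h n : ℕ, blocksUpTo x h n ≤ j := by
      intro h n
      have hsub : (fun i : ℕ => fun l : Fin n => ((T^[i + l] x : ℤ) : ZMod 3)) '' {i | i + n ≤ h}
          ⊆ (fun i : ℕ => fun l : Fin n => ((T^[i + l] x : ℤ) : ZMod 3)) '' (Set.Iio j) := by
        rintro _ ⟨a, _, rfl⟩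
        rcases Nat.lt_or_ge a j with h1 | h1
        · exact ⟨a, h1, rfl⟩
        · have hper : T^[j - i] (T^[i] x) = T^[i] x := by
            rw [← Function.iterate_add_apply, Nat.sub_add_cancel hij.le]
            exact he.symm
          refine ⟨(a - i) % (j - i) + i, ?_, ?_⟩
          · have : (a - i) % (j - i) < j - i := Nat.mod_lt _ (by omega)
            simp only [Set.mem_Iio]
            omega
          · funext l
            simp only
            congr 1
            have h2 := Pool.Agent.TH932.S2.F.iter_per hper (a - i)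
            have e1 : T^[a] x = T^[(a - i) % (j - i) + i] x := by
              rw [Function.iterate_add_apply _ _ i, ← h2, ← Function.iterate_add_apply,
                Nat.sub_add_cancel (by omega : i ≤ a)]
            rw [add_comm _ (l : ℕ), add_comm a (l : ℕ), Function.iterate_add_apply,
              Function.iterate_add_apply _ _ a, e1]
      refine (Set.ncard_le_ncard hsub (Set.toFinite _)).trans ?_
      refine (Set.ncard_image_le (Set.toFinite _)).trans ?_
      rw [Set.ncard_eq_toFinset_card']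
      simp
    obtain ⟨N1, hN1⟩ := exists_nat_ge ((j : ℝ) / A)
    have h1 := hcx (max N₀ N1) (le_max_left _ _)
    have h3 : (blocksUpTo x ((max N₀ N1) ^ K) (max N₀ N1) : ℝ) ≤ j := by exact_mod_cast hle _ _
    have h4 : (j : ℝ) ≤ A * (max N₀ N1 : ℕ) := by
      rw [div_le_iff₀ hA] at hN1
      have h5 : (N1 : ℝ) ≤ (max N₀ N1 : ℕ) := by exact_mod_cast le_max_right N₀ N1
      nlinarith
    linarith

end Pool.Agent.Results.MP_96a252_nt.SuperlinearResidues
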